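import Pool.Graph.R_pool_sql_team_seeded_35f281b4.K7.H9.ND.Rep

/-!
# Models with isolated singularities over a local field

`Ω` is an algebraic closure of `ℚ_ℓ`, `q` is the number of elements of the residue field of the local
field `K`, `ℓ ∤ q`.  Everything is considered after a finite extension of `K`, so that the inertia
group acts unipotently; `F` is the action of a lift of the geometric Frobenius.
-/

set_option autoImplicit false

open Module

universe v w

namespace Pool.Agent.H849.IS

open Pool.Agent.Y163.MW Pool.Agent.Y143 Pool.Agent.K7.H9.ND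

section general

variable {Ω : Type w} [Field Ω] {V V' U U' : Type v} [AddCommGroup V] [Module Ω V]
  [AddCommGroup V'] [Module Ω V'] [AddCommGroup U] [Module Ω U] [AddCommGroup U'] [Module Ω U']

/-- `f F = c F' f`. -/
def Inter (c : Ω) (F : Module.End Ω V) (F' : Module.End Ω V') (f : V →ₗ[Ω] V') : Prop :=
  ∀ x, f (F x) = c • F' (f x)

/-- The pairing `B` is nondegenerate and `B(F x, F' y) = c B(x, y)`. -/
structure IsPairing (c : Ω) (F : Module.End Ω V) (F' : Module.End Ω V')
    (B : V →ₗ[Ω] V' →ₗ[Ω] Ω) : Prop where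
  left : ∀ x, (∀ y, B x y = 0) → x = 0
  right : ∀ y, (∀ x, B x y = 0) → y = 0
  frob : ∀ x y, B (F x) (F' y) = c * B x y

/-- `B(s u, y) = B'(u, j y)`. -/
def IsAdjoint (B : V →ₗ[Ω] V' →ₗ[Ω] Ω) (B' : U →ₗ[Ω] U' →ₗ[Ω] Ω) (s : U →ₗ[Ω] V)
    (j : V' →ₗ[Ω] U') : Prop := ∀ u y, B (s u) y = B' u (j y)

variable [CharZero Ω]

/-- The eigenvalues of `F` on the stable subspace `R` are `q`-Weil numbers of weights at most `a`, if
they are Weil numbers of integral weights. -/
def SubLe (q : ℕ) (a : ℤ) (F : Module.End Ω V) (R : Submodule Ω V) : Prop :=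
  ∀ (α : Ω) (x : V), x ∈ R → x ≠ 0 → F x = α • x → ∀ w : ℤ, IsWeilNumber q w α → w ≤ a

/-- The eigenvalues of `F` on the quotient by the stable subspace `R` are `q`-Weil numbers of weights
at most `a`, if they are Weil numbers of integral weights. -/
def QuotLe (q : ℕ) (a : ℤ) (F : Module.End Ω V) (R : Submodule Ω V) : Prop :=
  ∀ (α : Ω) (x : V), x ∉ R → F x - α • x ∈ R → ∀ w : ℤ, IsWeilNumber q w α → w ≤ a

/-- `f` is an isomorphism from the part of weight `a` for `F` to the part of weight `b`. -/
def WtIso (q : ℕ) (F f : Module.End Ω V) (a b : ℤ) : Prop :=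
  (∀ x ∈ wtp F q a, f x = 0 → x = 0) ∧ ∀ y ∈ wtp F q b, ∃ x ∈ wtp F q a, f x = y

end general

/-- The vanishing cohomology of an isolated singular point `x`, of relative dimension `n`, of the
special fibre: `Φ = R^n Φ(Ω)_x` and `Φc = H^n_x(R Ψ(Ω))`, with the geometric Frobenius, the
canonical map `can`, the variation `var` (the logarithm of the action of the inertia group, divided
by a generator of `ℤ_ℓ(1)`) and the local duality `pair`. -/
structure Sing (Ω : Type w) [Field Ω] where
  /-- the vanishing cohomology -/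
  Φ : Type v
  [acg : AddCommGroup Φ]
  [mod : Module Ω Φ]
  /-- the cohomology with support in the point -/
  Φc : Type v
  [acgc : AddCommGroup Φc]
  [modc : Module Ω Φc]
  /-- the geometric Frobenius on `Φ` -/
  F : Module.End Ω Φ
  /-- the geometric Frobenius on `Φc` -/
  Fc : Module.End Ω Φc
  /-- the canonical map -/
  can : Φc →ₗ[Ω] Φ
  /-- the variation -/
  var : Φ →ₗ[Ω] Φc
  /-- the duality -/
  pair : Φ →ₗ[Ω] Φc →ₗ[Ω] Ω

attribute [instance] Sing.acg Sing.mod Sing.acgc Sing.modc

namespace Sing

/-- The known properties of the vanishing cohomology of an isolated singularity of relative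
dimension `n`. -/
structure IsSing {Ω : Type w} [Field Ω] [CharZero Ω] (S : Sing.{v, w} Ω) (q n : ℕ) : Prop where
  finite : Module.Finite Ω S.Φ
  finitec : Module.Finite Ω S.Φc
  can_F : Inter (1 : Ω) S.Fc S.F S.can
  var_F : Inter (q : Ω) S.F S.Fc S.var
  weil : HasWt S.F q
  weilc : HasWt S.Fc q
  dual : IsPairing ((q : Ω) ^ n) S.F S.Fc S.pair

variable {Ω : Type w} [Field Ω]

/-- An isomorphism of the vanishing cohomologies of two singular points. -/
structure Iso (S S' : Sing.{v, w} Ω) where
  /-- the isomorphism for `Φ` -/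
  e : S.Φ ≃ₗ[Ω] S'.Φ
  /-- the isomorphism for `Φc` -/
  ec : S.Φc ≃ₗ[Ω] S'.Φc
  frob : ∀ x, e (S.F x) = S'.F (e x)
  can : ∀ y, e (S.can y) = S'.can (ec y)
  var : ∀ x, ec (S.var x) = S'.var (e x)

/-- The direct sum of the vanishing cohomologies of finitely many singular points. -/
noncomputable def sum {σ : Type} [Fintype σ] (T : σ → Sing.{v, w} Ω) : Sing.{v, w} Ω where
  Φ := ∀ x, (T x).Φ
  Φc := ∀ x, (T x).Φc
  F := LinearMap.pi fun x => (T x).F.comp (LinearMap.proj x)
  Fc := LinearMap.pi fun x => (T x).Fc.comp (LinearMap.proj x)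
  can := LinearMap.pi fun x => (T x).can.comp (LinearMap.proj x)
  var := LinearMap.pi fun x => (T x).var.comp (LinearMap.proj x)
  pair := ∑ x, ((T x).pair.compl₂ (LinearMap.proj x)).comp (LinearMap.proj x)

end Sing

/-- The cohomology of a smooth proper variety `X` of dimension `n` over `K` with a proper model whose
special fibre has only isolated singularities: the groups `H m = H^m(X)` with `F` and `N`, the finite
set `σ` of the singular points with their vanishing cohomologies, the map `s : H^n(X) → ⨁ Φ x`, its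
dual `j : ⨁ Φc x → H^n(X)`, and the Poincaré duality `pair`. -/
structure Model (Ω : Type w) [Field Ω] where
  /-- the set of the singular points -/
  σ : Type
  [fin : Fintype σ]
  /-- the singularities -/
  sing : σ → Sing.{v, w} Ω
  /-- the cohomology groups -/
  H : ℕ → FN.{v, w} Ω
  /-- the dimension -/
  n : ℕ
  /-- the map from the cohomology to the vanishing cohomology -/
  s : (H n).V →ₗ[Ω] (Sing.sum sing).Φ
  /-- the map from the cohomology with supports in the singular points to the cohomology -/
  j : (Sing.sum sing).Φc →ₗ[Ω] (H n).V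
  /-- the Poincaré duality -/
  pair : ∀ m m', (H m).V →ₗ[Ω] (H m').V →ₗ[Ω] Ω

attribute [instance] Model.fin

namespace Model

variable {Ω : Type w} [Field Ω] (M : Model.{v, w} Ω)

/-- The direct sum of the vanishing cohomologies of all the singular points. -/
noncomputable def tot : Sing.{v, w} Ω := Sing.sum M.sing

/-- The map `s`. -/
noncomputable def S : (M.H M.n).V →ₗ[Ω] M.tot.Φ := M.s

/-- The map `j`. -/
noncomputable def J : M.tot.Φc →ₗ[Ω] (M.H M.n).V := M.j

/-- The Poincaré duality for `H^n(X)`. -/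
noncomputable def B : (M.H M.n).V →ₗ[Ω] (M.H M.n).V →ₗ[Ω] Ω := M.pair M.n M.n

/-- The defect: the dimension of the cokernel of `s : H^n(X) → ⨁ Φ x`, that is, of the kernel of
`H^(n + 1)(Y) → H^(n + 1)(X)`. -/
noncomputable def defect : ℕ := finrank Ω (M.tot.Φ ⧸ LinearMap.range M.S)

/-- The maps `s` and `j` commute with the Frobenius, they are adjoint to each other, `s ∘ j = can`, and
`N = j ∘ var ∘ s`. -/
structure IsSpec : Prop where
  s_F : Inter (1 : Ω) (M.H M.n).F M.tot.F M.S
  j_F : Inter (1 : Ω) M.tot.Fc (M.H M.n).F M.J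
  adj : IsAdjoint M.tot.pair M.B M.S M.J
  s_j : ∀ y, M.S (M.J y) = M.tot.can y
  N_eq : ∀ v, (M.H M.n).N v = M.J (M.tot.var (M.S v))

variable [CharZero Ω]

/-- The special fibre `Y` is proper, so that `H^m(Y)` has weights at most `m`. There are
isomorphisms `H^m(Y) → H^m(X)` for `m ≠ n, n + 1`, and an exact sequence
`0 → H^n(Y) → H^n(X) → ⨁ Φ x → H^(n + 1)(Y) → H^(n + 1)(X) → 0`; hence `H^m(X)` is unramified of
weights at most `m` for `m ≠ n`, and the kernel and the cokernel of `s` have weights at most `n` and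
`n + 1`. -/
structure IsExact (q : ℕ) : Prop where
  unramified : ∀ m, m ≠ M.n → (M.H m).N = 0
  low : ∀ m, m ≠ M.n → SubLe q m (M.H m).F ⊤
  ker : SubLe q M.n (M.H M.n).F (LinearMap.ker M.S)
  coker : QuotLe q (M.n + 1) M.tot.F (LinearMap.range M.S)

/-- The known properties (Deligne, Grothendieck, Weil II, SGA 7): the eigenvalues of the Frobenius are
Weil numbers of integral weights, `N F = q F N`, Poincaré duality; the vanishing cycles are
concentrated in the degree `n`, they are supported in the singular points, and inertia acts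
unipotently. -/
structure IsModel (q : ℕ) : Prop where
  sing : ∀ x, (M.sing x).IsSing q M.n
  rep : ∀ m, (M.H m).IsRep q
  zero : ∀ m, 2 * M.n < m → Subsingleton (M.H m).V
  dual : ∀ m m', m + m' = 2 * M.n →
    IsPairing ((q : Ω) ^ M.n) (M.H m).F (M.H m').F (M.pair m m')
  spec : M.IsSpec
  exact : M.IsExact q

/-- The dimension of the kernel of `N` on the part of weight `n + 1` of `H^n(X)`. -/
noncomputable def kerDim (q : ℕ) : ℕ :=
  finrank Ω (wtp (M.H M.n).F q (M.n + 1) ⊓ LinearMap.ker (M.H M.n).N : Submodule Ω (M.H M.n).V)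

/-- A family `φ` of vanishing cycles of weight `n + 1` is zero if `j (var φ) = 0` and `φ` is
orthogonal to all the relations, the `ψ` with `j ψ = 0`. (The form `(φ, φ') ↦ ⟨φ, var φ'⟩` is
nondegenerate on the space of the `φ` of weight `n + 1` with `j (var φ) = 0`.) -/
def RelNondeg (q : ℕ) : Prop :=
  ∀ φ ∈ wtp M.tot.F q (M.n + 1), M.J (M.tot.var φ) = 0 →
    (∀ ψ, M.J ψ = 0 → M.tot.pair φ ψ = 0) → φ = 0

end Model

/-- The vanishing cohomology `S` is isomorphic to the one of at least `d + 1` singular points of a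
model with defect `d` for which the weight-monodromy conjecture holds. -/
def Sing.Occurs {Ω : Type w} [Field Ω] [CharZero Ω] (S : Sing.{v, w} Ω) (q n : ℕ) : Prop :=
  ∃ M : Model.{v, w} Ω, M.IsModel q ∧ M.n = n ∧ (M.H M.n).Pure q M.n ∧
    ∃ τ : Finset M.σ, (∀ y ∈ τ, Nonempty (S.Iso (M.sing y))) ∧ M.defect < τ.card

end Pool.Agent.H849.IS
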