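import Pool.Agent.H849.IS.Main

/-!
# From one model to the local condition, and to other models
-/

set_option autoImplicit false

open Module

universe v w

namespace Pool.Agent.H849.IS

open Pool.Agent.Y163.MW Pool.Agent.Y143 Pool.Agent.K7.H9.ND Model

variable {Ω : Type w} [Field Ω] [CharZero Ω] [IsAlgClosed Ω] {q : ℕ}

omit [IsAlgClosed Ω] in
theorem Sing.Iso.wt {S S' : Sing.{v, w} Ω} (hq : 0 < q) (e : S.Iso S') {a : ℤ} {φ : S.Φ}
    (hφ : φ ∈ wtp S.F q a) : e.e φ ∈ wtp S'.F q a :=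
  map_wtp0 hq (φ := (e.e : S.Φ →ₗ[Ω] S'.Φ)) (F := S.F) (F' := S'.F) (fun x => e.frob x) hφ

omit [CharZero Ω] [IsAlgClosed Ω] in
theorem Sing.Iso.pow {S S' : Sing.{v, w} Ω} (e : S.Iso S') (k : ℕ) (φ : S.Φ) :
    S'.var (((S'.can ∘ₗ S'.var) ^ k) (e.e φ)) = e.ec (S.var (((S.can ∘ₗ S.var) ^ k) φ)) := by
  have h : ∀ k φ, ((S'.can ∘ₗ S'.var) ^ k) (e.e φ) = e.e (((S.can ∘ₗ S.var) ^ k) φ) := by
    intro k
    induction k with
    | zero => intro φ; rfl
    | succ k ih =>
      intro φ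
      rw [pow_succ', pow_succ', Module.End.mul_apply, Module.End.mul_apply, ih,
        LinearMap.comp_apply, LinearMap.comp_apply, ← e.var, ← e.can]
  rw [h, ← e.var]

theorem locPure_of_occurs (hq : 1 < q) {S : Sing.{v, w} Ω} {n : ℕ} (h : S.Occurs q n) (k : ℕ) :
    S.LocPure q n k := by
  classical
  obtain ⟨M, hM, rfl, hpure, τ, hτ, hd⟩ := h
  rw [pure_iff_inj hM hq] at hpure
  have hfin := (hM.rep M.n).finite
  have hfinP := (isSing hM).finite
  intro φ hφ h0
  by_contra hne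
  let e' : ∀ y : τ, S.Iso (M.sing y) := fun y => (hτ y y.2).some
  -- the linear combinations of the copies of `φ`
  let T : (τ → Ω) →ₗ[Ω] (∀ x, (M.sing x).Φ) :=
    ∑ y : τ, (LinearMap.single Ω (fun x => (M.sing x).Φ) (y : M.σ)).comp
      ((LinearMap.toSpanSingleton Ω _ ((e' y).e φ)).comp (LinearMap.proj y))
  have hT : ∀ c, T c = ∑ y : τ, Pi.single (y : M.σ) (c y • (e' y).e φ) := by
    intro c
    simp only [T, LinearMap.sum_apply]
    rfl
  have hTy : ∀ (c : τ → Ω) (y : τ), T c y = c y • (e' y).e φ := by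
    intro c y
    rw [hT, Finset.sum_apply, Finset.sum_eq_single y, Pi.single_eq_same]
    · intro z _ hz
      rw [Pi.single_eq_of_ne]
      intro h
      exact hz (Subtype.ext h.symm)
    · intro h
      exact absurd (Finset.mem_univ y) h
  have hTz : ∀ (c : τ → Ω) (z : M.σ), z ∉ τ → T c z = 0 := by
    intro c z hz
    rw [hT, Finset.sum_apply]
    refine Finset.sum_eq_zero fun y _ => ?_
    rw [Pi.single_eq_of_ne]
    rintro rfl
    exact hz y.2
  have hTw : ∀ c, (T c : M.tot.Φ) ∈ wtp M.tot.F q (M.n + (k + 1 : ℕ)) := by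
    intro c
    refine (mem_wtp_sum (by omega) _ _).2 fun x => ?_
    by_cases hx : x ∈ τ
    · rw [hTy c ⟨x, hx⟩]
      exact Submodule.smul_mem _ _ ((e' ⟨x, hx⟩).wt (by omega) hφ)
    · rw [hTz c x hx]
      exact Submodule.zero_mem _
  have hTv : ∀ c, M.tot.var (((M.tot.can ∘ₗ M.tot.var) ^ k) (T c : M.tot.Φ)) = 0 := by
    intro c
    funext x
    show (M.sing x).var ((((M.tot.can ∘ₗ M.tot.var) ^ k) (T c : M.tot.Φ)) x) = 0
    have h1 := sum_pow (T := M.sing) k (T c) x
    have h2 : (((M.tot.can ∘ₗ M.tot.var) ^ k) (T c : M.tot.Φ)) x =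
      (((M.sing x).can ∘ₗ (M.sing x).var) ^ k) (T c x) := h1
    rw [h2]
    by_cases hx : x ∈ τ
    · rw [hTy c ⟨x, hx⟩, map_smul, map_smul, (e' ⟨x, hx⟩).pow, h0, map_zero, smul_zero]
    · rw [hTz c x hx, map_zero, map_zero]
  obtain ⟨c, hc, v, hv, hvc⟩ : ∃ c ≠ 0, ∃ v ∈ wtp (M.H M.n).F q (M.n + (k + 1 : ℕ)),
      M.S v = (T c : M.tot.Φ) := by
    let T' : (τ → Ω) →ₗ[Ω] M.tot.Φ := T
    have h1 : LinearMap.ker ((LinearMap.range M.S).mkQ ∘ₗ T') ≠ ⊥ := by
      apply LinearMap.ker_ne_bot_of_finrank_lt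
      rw [Module.finrank_fintype_fun_eq_card, Fintype.card_coe]
      exact hd
    obtain ⟨c, hc, hc0⟩ := (Submodule.ne_bot_iff _).1 h1
    rw [LinearMap.mem_ker, LinearMap.comp_apply, Submodule.mkQ_apply,
      Submodule.Quotient.mk_eq_zero] at hc
    obtain ⟨v, hv⟩ := hc
    obtain ⟨v', hv', hv2⟩ := exists_wt_lift hq (hasWtV hM M.n) (isSing hM).weil (S_F hM)
      (φ := M.S) (v := v) (w := M.n + (k + 1 : ℕ)) (by rw [hv]; exact hTw c)
    exact ⟨c, hc0, v', hv', hv2.trans hv⟩
  have h2 : v = 0 := by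
    apply hpure (k + 1) (by omega) v hv
    rw [N_pow_succ hM, hvc, hTv, map_zero]
  rw [h2, map_zero] at hvc
  apply hc
  funext y
  have h3 := hTy c y
  have h3' : T c y = 0 := congrFun hvc.symm (y : M.σ)
  rw [h3'] at h3
  have h4 : (e' y).e φ ≠ 0 := fun h => hne ((e' y).e.injective (h.trans (map_zero _).symm))
  exact (smul_eq_zero.1 h3.symm).resolve_right h4

namespace Model

variable {M : Model.{v, w} Ω}

/-- the radical of the form on the relations -/
theorem pure_iff_relations (hM : M.IsModel q) (hq : 1 < q)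
    (hloc : ∀ x k, (M.sing x).LocPure q M.n k) :
    (M.H M.n).Pure q M.n ↔ M.RelNondeg q := by
  have hfin := (hM.rep M.n).finite
  have hfinP := (isSing hM).finite
  have hfinPc := (isSing hM).finitec
  -- double orthogonality
  have hdo : ∀ φ : M.tot.Φ, (∀ ψ, M.J ψ = 0 → M.tot.pair φ ψ = 0) → φ ∈ LinearMap.range M.S := by
    intro φ hφ
    by_contra hcon
    obtain ⟨f, hf, hfS⟩ := Submodule.exists_dual_map_eq_bot_of_notMem hcon inferInstance
    -- represent `f` by an element of `Pc`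
    have hflip : Function.Injective M.tot.pair.flip := by
      rw [← LinearMap.ker_eq_bot, LinearMap.ker_eq_bot']
      intro ψ hψ
      exact (isSing hM).dual.right ψ fun φ => LinearMap.congr_fun hψ φ
    have hinj : Function.Injective M.tot.pair := by
      rw [← LinearMap.ker_eq_bot, LinearMap.ker_eq_bot']
      intro φ hφ
      exact (isSing hM).dual.left φ fun ψ => LinearMap.congr_fun hφ ψ
    have hd : finrank Ω M.tot.Φc = finrank Ω (Dual Ω M.tot.Φ) := by
      apply le_antisymm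
      · exact LinearMap.finrank_le_finrank_of_injective hflip
      · rw [Subspace.dual_finrank_eq, ← Subspace.dual_finrank_eq (V := M.tot.Φc)]
        exact LinearMap.finrank_le_finrank_of_injective hinj
    obtain ⟨ψ, hψ⟩ := (LinearMap.injective_iff_surjective_of_finrank_eq_finrank hd).1 hflip f
    have h1 : ∀ φ, M.tot.pair φ ψ = f φ := fun φ => LinearMap.congr_fun hψ φ
    have h2 : M.J ψ = 0 := by
      apply (hM.dual M.n M.n (by omega)).right
      intro v
      have h4 := hM.spec.adj v ψ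
      rw [h1] at h4
      have h3 : f (M.S v) ∈ (LinearMap.range M.S).map f := ⟨_, ⟨v, rfl⟩, rfl⟩
      rw [hfS, Submodule.mem_bot] at h3
      rw [h3] at h4
      exact h4.symm
    apply hf
    rw [← h1]
    exact hφ ψ h2
  rw [pure_iff_inj hM hq]
  constructor
  · intro h φ hφ h1 h2
    obtain ⟨v, rfl⟩ := hdo φ h2
    obtain ⟨v', hv', hv2⟩ := exists_wt_lift hq (hasWtV hM M.n) (isSing hM).weil (S_F hM)
      (φ := M.S) (v := v) (w := M.n + 1) hφ
    rw [← hv2]
    have h3 : v' = 0 := by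
      apply h 1 le_rfl v' (by exact_mod_cast hv')
      rw [pow_one, hM.spec.N_eq, hv2, h1]
    rw [h3, map_zero]
  · intro h k hk v hv hN
    obtain ⟨k, rfl⟩ : ∃ k', k = k' + 1 := ⟨k - 1, by omega⟩
    rcases Nat.eq_zero_or_pos k with hk0 | hk0
    · subst hk0
      apply S_inj hM hq (by omega) hv
      apply h
      · have h1 := map_wtp0 (by omega) (S_F hM) hv
        exact_mod_cast h1
      · rw [← hM.spec.N_eq]
        simpa using hN
      · intro ψ hψ
        rw [hM.spec.adj v ψ, hψ, map_zero]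
    · exact inj_of_loc hM hq (fun x => hloc x k)
        (fun φ hφ => S_surj hM hq (by omega) hφ) hv hN

/-- the weight-monodromy conjecture for `N ^ k`, `k ≥ 2` -/
theorem bijective_two (hM : M.IsModel q) (hq : 1 < q) (hloc : ∀ x k, (M.sing x).LocPure q M.n k)
    {k : ℕ} (hk : 2 ≤ k) : WtIso q (M.H M.n).F ((M.H M.n).N ^ k) (M.n + k) (M.n - k) := by
  obtain ⟨k, rfl⟩ : ∃ k', k = k' + 1 := ⟨k - 1, by omega⟩
  exact surj_of_inj hM hq fun v hv hN => inj_of_loc hM hq (fun x => hloc x k)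
    (fun φ hφ => S_surj hM hq (by omega) hφ) hv hN

/-- the bound for the kernel of `N` in the weight `n + 1` -/
theorem kerDim_le (hM : M.IsModel q) (hq : 1 < q)
    (hloc : ∀ x k, (M.sing x).LocPure q M.n k) : M.kerDim q ≤ M.defect := by
  have hfin := (hM.rep M.n).finite
  have hfinP := (isSing hM).finite
  have hfinPc := (isSing hM).finitec
  let R : Submodule Ω (M.H M.n).V := wtp (M.H M.n).F q (M.n + 1) ⊓ LinearMap.ker (M.H M.n).N
  let T : R →ₗ[Ω] LinearMap.ker M.J :=
    ((M.tot.var ∘ₗ M.S) ∘ₗ R.subtype).codRestrict _ (by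
      intro v
      rw [LinearMap.mem_ker]
      show M.J (M.tot.var (M.S v)) = 0
      rw [← hM.spec.N_eq]
      exact LinearMap.mem_ker.1 v.2.2)
  have hT : Function.Injective T := by
    rw [← LinearMap.ker_eq_bot, LinearMap.ker_eq_bot']
    intro v hv
    apply Subtype.ext
    apply S_inj hM hq (a := M.n + 1) (by omega) v.2.1
    have h1 : M.tot.var (M.S v) = 0 := congrArg Subtype.val hv
    have h2 : M.S v ∈ wtp M.tot.F q (M.n + 1) := map_wtp0 (by omega) (S_F hM) v.2.1
    have h3 := sum_locPure (T := M.sing) (n := M.n) (k := 0) (by omega : 0 < q)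
      (fun x => hloc x 0)
    exact h3 _ (by exact_mod_cast h2) h1
  exact (LinearMap.finrank_le_finrank_of_injective hT).trans (finrank_ker_J hM)

/-- no defect -/
theorem pure_of_defect (hM : M.IsModel q) (hq : 1 < q)
    (hloc : ∀ x k, (M.sing x).LocPure q M.n k) (hd : M.defect = 0) :
    (M.H M.n).Pure q M.n := by
  rw [pure_iff_inj hM hq]
  intro k hk v hv hN
  obtain ⟨k, rfl⟩ : ∃ k', k = k' + 1 := ⟨k - 1, by omega⟩
  exact inj_of_loc hM hq (fun x => hloc x k) (fun φ hφ => S_surj' hM hq hd hφ) hv hN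

end Model

end Pool.Agent.H849.IS
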