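import Pool.Agent.H849.IS.Wt

/-!
# The weight-monodromy conjecture for reductions with isolated singularities
-/

set_option autoImplicit false

open Module

universe v w

namespace Pool.Agent.H849.IS

open Pool.Agent.Y163.MW Pool.Agent.Y143 Pool.Agent.K7.H9.ND

variable {Ω : Type w} [Field Ω] [CharZero Ω] {q : ℕ}

/-- The local condition: `var (can var)^k` is injective on the part of weight `n + k + 1`. -/
def Sing.LocPure (S : Sing.{v, w} Ω) (q n : ℕ) (k : ℕ) : Prop :=
  ∀ φ ∈ wtp S.F q (n + (k + 1 : ℕ)), S.var (((S.can ∘ₗ S.var) ^ k) φ) = 0 → φ = 0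

section sum

variable {σ : Type} [Fintype σ] {T : σ → Sing.{v, w} Ω}

omit [CharZero Ω] in
theorem sum_pair (φ : (Sing.sum T).Φ) (ψ : (Sing.sum T).Φc) :
    (Sing.sum T).pair φ ψ = ∑ x, (T x).pair (φ x) (ψ x) := by
  have h : ∀ (φ : ∀ x, (T x).Φ) (ψ : ∀ x, (T x).Φc),
      (∑ x, ((T x).pair.compl₂ (LinearMap.proj x)).comp (LinearMap.proj x) :
        (∀ x, (T x).Φ) →ₗ[Ω] (∀ x, (T x).Φc) →ₗ[Ω] Ω) φ ψ = ∑ x, (T x).pair (φ x) (ψ x) := by
    intro φ ψ
    simp only [LinearMap.sum_apply]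
    rfl
  exact h φ ψ

omit [CharZero Ω] in
theorem sum_isPairing {c : Ω} (h : ∀ x, IsPairing c (T x).F (T x).Fc (T x).pair) :
    IsPairing c (Sing.sum T).F (Sing.sum T).Fc (Sing.sum T).pair where
  left := by
    classical
    intro φ h0
    funext x
    apply (h x).left
    intro y
    have h1 := h0 (Pi.single x y : ∀ x, (T x).Φc)
    rw [sum_pair, Finset.sum_eq_single x, Pi.single_eq_same] at h1
    · exact h1
    · intro z _ hz
      rw [Pi.single_eq_of_ne hz, map_zero]
    · intro h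
      exact absurd (Finset.mem_univ x) h
  right := by
    classical
    intro ψ h0
    funext x
    apply (h x).right
    intro y
    have h1 := h0 (Pi.single x y : ∀ x, (T x).Φ)
    rw [sum_pair, Finset.sum_eq_single x, Pi.single_eq_same] at h1
    · exact h1
    · intro z _ hz
      rw [Pi.single_eq_of_ne hz, map_zero, LinearMap.zero_apply]
    · intro h
      exact absurd (Finset.mem_univ x) h
  frob := by
    intro φ ψ
    rw [sum_pair, sum_pair, Finset.mul_sum]
    exact Finset.sum_congr rfl fun x _ => (h x).frob (φ x) (ψ x)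

theorem sum_isSing {n : ℕ} (h : ∀ x, (T x).IsSing q n) : (Sing.sum T).IsSing q n where
  finite := by
    have := fun x => (h x).finite
    exact inferInstanceAs (Module.Finite Ω (∀ x, (T x).Φ))
  finitec := by
    have := fun x => (h x).finitec
    exact inferInstanceAs (Module.Finite Ω (∀ x, (T x).Φc))
  can_F := by
    intro ψ
    funext x
    exact (h x).can_F (ψ x)
  var_F := by
    intro φ
    funext x
    exact (h x).var_F (φ x)
  weil := by
    intro α φ hφ h0
    obtain ⟨x, hx⟩ : ∃ x, φ x ≠ 0 := by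
      by_contra hcon
      push Not at hcon
      exact hφ (funext hcon)
    exact (h x).weil α (φ x) hx (congrFun h0 x)
  weilc := by
    intro α φ hφ h0
    obtain ⟨x, hx⟩ : ∃ x, φ x ≠ 0 := by
      by_contra hcon
      push Not at hcon
      exact hφ (funext hcon)
    exact (h x).weilc α (φ x) hx (congrFun h0 x)
  dual := sum_isPairing fun x => (h x).dual

theorem mem_wtp_sum (hq : 0 < q) (φ : (Sing.sum T).Φ) (a : ℤ) :
    φ ∈ wtp (Sing.sum T).F q a ↔ ∀ x, φ x ∈ wtp (T x).F q a := by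
  classical
  constructor
  · intro h x
    exact map_wtp0 hq (φ := (LinearMap.proj x : (∀ x, (T x).Φ) →ₗ[Ω] (T x).Φ))
      (F := (Sing.sum T).F) (F' := (T x).F) (fun _ => rfl) h
  · intro h
    have h1 : φ = ∑ x, (Pi.single x (φ x) : ∀ x, (T x).Φ) := (Finset.univ_sum_single φ).symm
    rw [h1]
    refine Submodule.sum_mem _ fun x _ => ?_
    refine map_wtp0 hq (φ := LinearMap.single Ω (fun x => (T x).Φ) x) (F := (T x).F)
      (F' := (Sing.sum T).F) (fun y => ?_) (h x)
    funext z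
    show (Pi.single x ((T x).F y) : ∀ x, (T x).Φ) z = (T z).F ((Pi.single x y : ∀ x, (T x).Φ) z)
    by_cases hz : z = x
    · subst hz
      rw [Pi.single_eq_same, Pi.single_eq_same]
    · rw [Pi.single_eq_of_ne hz, Pi.single_eq_of_ne hz, map_zero]

omit [CharZero Ω] in
theorem sum_pow (k : ℕ) (φ : (Sing.sum T).Φ) (x : σ) :
    ((((Sing.sum T).can ∘ₗ (Sing.sum T).var) ^ k) φ) x =
      (((T x).can ∘ₗ (T x).var) ^ k) (φ x) := by
  induction k with
  | zero => rfl
  | succ k ih =>
    rw [pow_succ', pow_succ', Module.End.mul_apply, Module.End.mul_apply, ← ih]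
    rfl

theorem sum_locPure (hq : 0 < q) {n k : ℕ} (h : ∀ x, (T x).LocPure q n k) :
    (Sing.sum T).LocPure q n k := by
  intro φ hφ h0
  funext x
  apply h x _ ((mem_wtp_sum hq _ _).1 hφ x)
  rw [← sum_pow]
  exact congrFun h0 x

end sum

namespace Model

variable {M : Model.{v, w} Ω}

section
variable (hM : M.IsModel q)
include hM

theorem isSing : M.tot.IsSing q M.n := sum_isSing hM.sing

theorem S_F (v : (M.H M.n).V) : M.S ((M.H M.n).F v) = M.tot.F (M.S v) := by
  have := hM.spec.s_F v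
  rwa [one_smul] at this

theorem S_N_pow (k : ℕ) (v : (M.H M.n).V) :
    M.S (((M.H M.n).N ^ k) v) = ((M.tot.can ∘ₗ M.tot.var) ^ k) (M.S v) := by
  induction k with
  | zero => rfl
  | succ k ih =>
    rw [pow_succ', pow_succ', Module.End.mul_apply, Module.End.mul_apply, hM.spec.N_eq,
      hM.spec.s_j, ih]
    rfl

theorem N_pow_succ (k : ℕ) (v : (M.H M.n).V) :
    ((M.H M.n).N ^ (k + 1)) v = M.J (M.tot.var (((M.tot.can ∘ₗ M.tot.var) ^ k) (M.S v))) := by
  rw [pow_succ', Module.End.mul_apply, hM.spec.N_eq, S_N_pow hM]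

theorem hasWtV (m : ℕ) : HasWt (M.H m).F q := (hM.rep m).weil

end

variable [IsAlgClosed Ω]

section
variable (hM : M.IsModel q) (hq : 1 < q)
include hM hq

/-- `S` is injective in the weights greater than `n` -/
theorem S_inj {a : ℤ} (ha : M.n < a) {v : (M.H M.n).V} (hv : v ∈ wtp (M.H M.n).F q a)
    (h : M.S v = 0) : v = 0 := by
  have := (hM.rep M.n).finite
  by_contra h0
  obtain ⟨α, y, hy, hy0, hF, hα⟩ := exists_eigen hq (hasWtV hM M.n) (S := LinearMap.ker M.S)
    (fun x hx => by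
      rw [LinearMap.mem_ker] at hx ⊢
      rw [S_F hM, hx, map_zero]) (LinearMap.mem_ker.2 h) hv h0
  have h1 := hM.exact.ker α y hy hy0 hF a hα
  omega

/-- `S` is surjective in the weights greater than `n + 1` -/
theorem S_surj {a : ℤ} (ha : M.n + 1 < a) {φ : M.tot.Φ} (hφ : φ ∈ wtp M.tot.F q a) :
    ∃ v ∈ wtp (M.H M.n).F q a, M.S v = φ := by
  have := (hM.rep M.n).finite
  have h1 : wtp M.tot.F q a ≤ LinearMap.range M.S := by
    apply wtp_le
    intro α φ hφ hF hα
    have h2 := hM.exact.coker α φ hφ hF a hα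
    omega
  obtain ⟨v, rfl⟩ := h1 hφ
  exact exists_wt_lift hq (hasWtV hM M.n) (isSing hM).weil (S_F hM) hφ

theorem S_surj' (h : M.defect = 0) {a : ℤ} {φ : M.tot.Φ} (hφ : φ ∈ wtp M.tot.F q a) :
    ∃ v ∈ wtp (M.H M.n).F q a, M.S v = φ := by
  have := (hM.rep M.n).finite
  have := (isSing hM).finite
  have h1 : LinearMap.range M.S = ⊤ := by
    have h2 : finrank Ω (M.tot.Φ ⧸ LinearMap.range M.S) = 0 := h
    rw [Module.finrank_zero_iff] at h2
    exact Submodule.Quotient.subsingleton_iff.1 h2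
  obtain ⟨v, rfl⟩ : φ ∈ LinearMap.range M.S := by
    rw [h1]
    trivial
  exact exists_wt_lift hq (hasWtV hM M.n) (isSing hM).weil (S_F hM) hφ

/-- injectivity of `J` follows from surjectivity of `S` -/
theorem J_inj {a b : ℤ} (hab : a + b = 2 * M.n)
    (hs : ∀ φ ∈ wtp M.tot.F q a, ∃ v ∈ wtp (M.H M.n).F q a, M.S v = φ) {ψ : M.tot.Φc}
    (hψ : ψ ∈ wtp M.tot.Fc q b) (h : M.J ψ = 0) : ψ = 0 := by
  have := (isSing hM).finite
  refine eq_zero_of_pair hq M.tot.pair.flip (F := M.tot.Fc) (F' := M.tot.F) (isSing hM).weil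
    (fun y x => (isSing hM).dual.frob x y) (fun ψ h => (isSing hM).dual.right ψ h)
    (by omega : b + a = 2 * M.n) hψ ?_
  intro φ hφ
  obtain ⟨v, -, rfl⟩ := hs φ hφ
  show M.tot.pair (M.S v) ψ = 0
  rw [hM.spec.adj v ψ, h, map_zero]

omit hq [IsAlgClosed Ω] in
theorem finrank_ker_J : finrank Ω (LinearMap.ker M.J) ≤ M.defect := by
  have := (isSing hM).finite
  have := (isSing hM).finitec
  let T : LinearMap.ker M.J →ₗ[Ω] Dual Ω (M.tot.Φ ⧸ LinearMap.range M.S) :=
    { toFun := fun ψ => (LinearMap.range M.S).liftQ (M.tot.pair.flip ψ) (by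
        rintro _ ⟨v, rfl⟩
        rw [LinearMap.mem_ker]
        show M.tot.pair (M.S v) ψ = 0
        rw [hM.spec.adj v ψ, LinearMap.mem_ker.1 ψ.2, map_zero])
      map_add' := by
        intro x y
        ext φ
        simp
      map_smul' := by
        intro c x
        ext φ
        simp }
  have hT : Function.Injective T := by
    rw [← LinearMap.ker_eq_bot, LinearMap.ker_eq_bot']
    intro ψ hψ
    apply Subtype.ext
    apply (isSing hM).dual.right
    intro φ
    have h1 := LinearMap.congr_fun hψ ((LinearMap.range M.S).mkQ φ)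
    exact h1
  have h1 := LinearMap.finrank_le_finrank_of_injective hT
  rwa [Subspace.dual_finrank_eq] at h1

omit [IsAlgClosed Ω] in
theorem N_pow_wt (i : ℕ) (u : (M.H M.n).V) (a : ℤ) (hu : u ∈ wtp (M.H M.n).F q a) :
    ((M.H M.n).N ^ i) u ∈ wtp (M.H M.n).F q (a - 2 * i) := by
  induction i with
  | zero => simpa using hu
  | succ i ih =>
    rw [pow_succ', Module.End.mul_apply]
    have := N_wtp (by omega : 0 < q) (hM.rep M.n).N_F ih
    convert this using 2
    push_cast
    ring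

/-- from the local condition to the injectivity of `N ^ (k + 1)` -/
theorem inj_of_loc {k : ℕ} (hloc : ∀ x, (M.sing x).LocPure q M.n k)
    (hs : ∀ φ ∈ wtp M.tot.F q (M.n + (k + 1 : ℕ)), ∃ v ∈ wtp (M.H M.n).F q (M.n + (k + 1 : ℕ)),
      M.S v = φ) {v : (M.H M.n).V} (hv : v ∈ wtp (M.H M.n).F q (M.n + (k + 1 : ℕ)))
    (h : ((M.H M.n).N ^ (k + 1)) v = 0) : v = 0 := by
  apply S_inj hM hq (by omega) hv
  have h1 : M.S v ∈ wtp M.tot.F q (M.n + (k + 1 : ℕ)) := map_wtp0 (by omega) (S_F hM) hv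
  rw [N_pow_succ hM] at h
  -- the weight of the vector in `Pc`
  have h2 : M.tot.var (((M.tot.can ∘ₗ M.tot.var) ^ k) (M.S v)) ∈
      wtp M.tot.Fc q (M.n - (k + 1 : ℕ)) := by
    rw [← S_N_pow hM]
    have h3 : M.S (((M.H M.n).N ^ k) v) ∈ wtp M.tot.F q (M.n + (k + 1 : ℕ) - 2 * k) :=
      map_wtp0 (by omega) (S_F hM) (N_pow_wt hM hq k v _ hv)
    have h4 := map_wtp (F := M.tot.F) (F' := M.tot.Fc) (by omega : 0 < q) (φ := M.tot.var)
      (t := 1) (fun φ => by
        rw [zpow_one]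
        exact (isSing hM).var_F φ) h3
    convert h4 using 2
    push_cast
    ring
  have h3 := J_inj hM hq (a := M.n + (k + 1 : ℕ)) (b := M.n - (k + 1 : ℕ)) (by omega) hs h2 h
  exact sum_locPure (by omega) hloc _ h1 h3

/-- the dimensions of the parts of weight `n + k` and `n - k` -/
theorem surj_of_inj {k : ℕ}
    (h : ∀ v ∈ wtp (M.H M.n).F q (M.n + k), ((M.H M.n).N ^ k) v = 0 → v = 0) :
    WtIso q (M.H M.n).F ((M.H M.n).N ^ k) (M.n + k) (M.n - k) := by
  refine ⟨h, ?_⟩
  have := (hM.rep M.n).finite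
  have hmap : ∀ v ∈ wtp (M.H M.n).F q (M.n + k), ((M.H M.n).N ^ k) v ∈
      wtp (M.H M.n).F q (M.n - k) := by
    intro v hv
    convert N_pow_wt hM hq k v _ hv using 2
    ring
  let T : wtp (M.H M.n).F q (M.n + k) →ₗ[Ω] wtp (M.H M.n).F q (M.n - k) :=
    ((M.H M.n).N ^ k).restrict hmap
  have hT : Function.Injective T := by
    rw [← LinearMap.ker_eq_bot, LinearMap.ker_eq_bot']
    intro x hx
    apply Subtype.ext
    exact h x x.2 (congrArg Subtype.val hx)
  have hD := hM.dual M.n M.n (by omega)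
  have hd : finrank Ω (wtp (M.H M.n).F q (M.n + k)) = finrank Ω (wtp (M.H M.n).F q (M.n - k)) :=
    finrank_eq_of_pair hq (M.pair M.n M.n) (hasWtV hM _) (hasWtV hM _) hD.frob hD.left hD.right
      (by omega)
  have hs := (LinearMap.injective_iff_surjective_of_finrank_eq_finrank hd).1 hT
  intro u hu
  obtain ⟨v, hv⟩ := hs ⟨u, hu⟩
  exact ⟨v, v.2, congrArg Subtype.val hv⟩

theorem pure_iff_inj : (M.H M.n).Pure q M.n ↔
    ∀ k : ℕ, 1 ≤ k → ∀ v ∈ wtp (M.H M.n).F q (M.n + k), ((M.H M.n).N ^ k) v = 0 → v = 0 := by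
  rw [FN.pure_iff hq (hM.rep M.n)]
  constructor
  · intro h k _ v hv hN
    exact (h k).1 v hv hN
  · intro h k
    rcases Nat.eq_zero_or_pos k with hk | hk
    · subst hk
      refine ⟨fun x _ hx => hx, fun y hy => ⟨y, ?_, rfl⟩⟩
      simpa using hy
    · exact surj_of_inj hM hq (h k hk)

/-- the cohomology in the other degrees -/
theorem pure_other {m : ℕ} (hm : m ≠ M.n) : (M.H m).Pure q m := by
  rw [FN.pure_iff hq (hM.rep m)]
  have hfin : ∀ m, Module.Finite Ω (M.H m).V := fun m => (hM.rep m).finite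
  have hhigh : ∀ m, m ≠ M.n → ∀ a : ℤ, m < a → ∀ x ∈ wtp (M.H m).F q a, x = 0 := by
    intro m hm a ha x hx
    have := hfin m
    by_contra h0
    obtain ⟨α, y, -, hy0, hF, hα⟩ := exists_eigen hq (hasWtV hM m) (S := ⊤) (fun _ _ => trivial)
      trivial hx h0
    have := hM.exact.low m hm α y trivial hy0 hF a hα
    omega
  have hlow : ∀ a : ℤ, a < m → ∀ x ∈ wtp (M.H m).F q a, x = 0 := by
    intro a ha x hx
    by_cases h2 : m ≤ 2 * M.n
    · have := hfin (2 * M.n - m)
      have hD := hM.dual m (2 * M.n - m) (by omega)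
      refine eq_zero_of_pair hq (M.pair m (2 * M.n - m)) (hasWtV hM _)
        hD.frob hD.left (by omega : a + (2 * M.n - a) = 2 * M.n) hx fun y hy => ?_
      rw [hhigh (2 * M.n - m) (by omega) (2 * M.n - a) (by omega) y hy, map_zero]
    · have := hM.zero m (by omega)
      exact Subsingleton.elim _ _
  intro k
  rcases Nat.eq_zero_or_pos k with hk | hk
  · subst hk
    refine ⟨fun x _ hx => hx, fun y hy => ⟨y, ?_, rfl⟩⟩
    simpa using hy
  · refine ⟨fun x hx _ => hhigh m hm _ (by omega) x hx, fun y hy => ⟨0, Submodule.zero_mem _, ?_⟩⟩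
    rw [map_zero, hlow _ (by omega) y hy]

end

end Model

end Pool.Agent.H849.IS
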