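import Pool.Agent.H849.IS.Defs

/-!
# Weights and pairings
-/

set_option autoImplicit false

open Module

namespace Pool.Agent.H849.IS

open Pool.Agent.Y163.MW Pool.Agent.Y143 Pool.Agent.K7.H9.ND

universe v w

variable {Ω : Type w} [Field Ω] [CharZero Ω] {V V' : Type v} [AddCommGroup V] [Module Ω V]
  [AddCommGroup V'] [Module Ω V'] {q : ℕ}

omit [CharZero Ω] in
theorem pair_gen (B : V →ₗ[Ω] V' →ₗ[Ω] Ω) {F : Module.End Ω V} {F' : Module.End Ω V'} {c : Ω}
    (hB : ∀ x y, B (F x) (F' y) = c * B x y) {α β : Ω} (hαβ : α * β ≠ c) {x : V} {y : V'}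
    (hx : x ∈ F.maxGenEigenspace α) (hy : y ∈ F'.maxGenEigenspace β) : B x y = 0 := by
  have key : ∀ N k l : ℕ, k + l = N → ∀ x y, ((F - algebraMap Ω _ α) ^ k) x = 0 →
      ((F' - algebraMap Ω _ β) ^ l) y = 0 → B x y = 0 := by
    intro N
    induction N using Nat.strong_induction_on with
    | _ N ih =>
      intro k l hkl x y hx hy
      rcases Nat.eq_zero_or_pos k with hk | hk
      · subst hk
        rw [pow_zero, Module.End.one_apply] at hx
        rw [hx, map_zero, LinearMap.zero_apply]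
      rcases Nat.eq_zero_or_pos l with hl | hl
      · subst hl
        rw [pow_zero, Module.End.one_apply] at hy
        rw [hy, map_zero]
      obtain ⟨k, rfl⟩ : ∃ k', k = k' + 1 := ⟨k - 1, by omega⟩
      obtain ⟨l, rfl⟩ : ∃ l', l = l' + 1 := ⟨l - 1, by omega⟩
      have hx' : ((F - algebraMap Ω _ α) ^ k) ((F - algebraMap Ω _ α) x) = 0 := by
        rw [← Module.End.mul_apply, ← pow_succ]
        exact hx
      have hy' : ((F' - algebraMap Ω _ β) ^ l) ((F' - algebraMap Ω _ β) y) = 0 := by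
        rw [← Module.End.mul_apply, ← pow_succ]
        exact hy
      have h1 := ih (k + (l + 1)) (by omega) k (l + 1) rfl _ y hx' hy
      have h2 := ih ((k + 1) + l) (by omega) (k + 1) l rfl x _ hx hy'
      have h3 := ih (k + l) (by omega) k l rfl _ _ hx' hy'
      have hFx : F x = α • x + (F - algebraMap Ω _ α) x := by
        rw [LinearMap.sub_apply, Module.algebraMap_end_apply]
        abel
      have hFy : F' y = β • y + (F' - algebraMap Ω _ β) y := by
        rw [LinearMap.sub_apply, Module.algebraMap_end_apply]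
        abel
      have h4 := hB x y
      rw [hFx, hFy] at h4
      simp only [map_add, LinearMap.add_apply, map_smul, LinearMap.smul_apply, h1, h2, h3,
        add_zero, smul_eq_mul] at h4
      have h5 : (α * β - c) * B x y = 0 := by
        rw [sub_mul, ← h4]
        ring
      refine (mul_eq_zero.1 h5).resolve_left fun h => hαβ (sub_eq_zero.1 h)
  rw [Module.End.mem_maxGenEigenspace] at hx hy
  obtain ⟨k, hk⟩ := hx
  obtain ⟨l, hl⟩ := hy
  exact key _ k l rfl x y (by rw [Algebra.algebraMap_eq_smul_one]; exact hk)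
    (by rw [Algebra.algebraMap_eq_smul_one]; exact hl)

/-- parts of weights `a` and `b` are orthogonal if `a + b ≠ 2 n` -/
theorem pair_wt (hq : 1 < q) (B : V →ₗ[Ω] V' →ₗ[Ω] Ω) {F : Module.End Ω V} {F' : Module.End Ω V'}
    {n : ℕ} (hB : ∀ x y, B (F x) (F' y) = (q : Ω) ^ n * B x y) {a b : ℤ} (hab : a + b ≠ 2 * n)
    {x : V} {y : V'} (hx : x ∈ wtp F q a) (hy : y ∈ wtp F' q b) : B x y = 0 := by
  unfold wtp at hx hy
  induction hx using Submodule.iSup_induction' with
  | zero => rw [map_zero, LinearMap.zero_apply]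
  | add x x' _ _ hx hx' => rw [map_add, LinearMap.add_apply, hx, hx', add_zero]
  | mem α x hx =>
    induction hx using Submodule.iSup_induction' with
    | zero => rw [map_zero, LinearMap.zero_apply]
    | add x x' _ _ hx hx' => rw [map_add, LinearMap.add_apply, hx, hx', add_zero]
    | mem hα x hx =>
      induction hy using Submodule.iSup_induction' with
      | zero => rw [map_zero]
      | add y y' _ _ hy hy' => rw [map_add, hy, hy', add_zero]
      | mem β y hy =>
        induction hy using Submodule.iSup_induction' with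
        | zero => rw [map_zero]
        | add y y' _ _ hy hy' => rw [map_add, hy, hy', add_zero]
        | mem hβ y hy =>
          refine pair_gen B hB ?_ hx hy
          intro h
          have h1 := weil_mul (by omega : 0 < q) hα hβ
          rw [h] at h1
          have h2 := weil_natPow (Ω := Ω) (by omega : 0 < q) n
          exact hab (weil_unique hq h1 h2)

/-- decomposition into weight parts -/
theorem exists_decomp [IsAlgClosed Ω] [Module.Finite Ω V] {F : Module.End Ω V} (hF : HasWt F q)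
    (x : V) : ∃ f : ℤ →₀ V, (∀ i, f i ∈ wtp F q i) ∧ f.sum (fun _ y => y) = x := by
  have h : x ∈ ⨆ w, wtp F q w := by rw [iSup_wtp hF]; trivial
  rw [Submodule.mem_iSup_iff_exists_finsupp] at h
  exact h

/-- nondegeneracy in one weight -/
theorem eq_zero_of_pair [IsAlgClosed Ω] [Module.Finite Ω V'] (hq : 1 < q)
    (B : V →ₗ[Ω] V' →ₗ[Ω] Ω) {F : Module.End Ω V} {F' : Module.End Ω V'} (hF' : HasWt F' q)
    {n : ℕ} (hB : ∀ x y, B (F x) (F' y) = (q : Ω) ^ n * B x y)
    (hl : ∀ x, (∀ y, B x y = 0) → x = 0) {a b : ℤ} (hab : a + b = 2 * n) {x : V}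
    (hx : x ∈ wtp F q a) (h : ∀ y ∈ wtp F' q b, B x y = 0) : x = 0 := by
  apply hl
  intro y
  obtain ⟨f, hf, rfl⟩ := exists_decomp hF' y
  rw [Finsupp.sum, map_sum]
  refine Finset.sum_eq_zero fun i _ => ?_
  by_cases hi : i = b
  · exact h _ (hi ▸ hf i)
  · exact pair_wt hq B hB (by omega) hx (hf i)

/-- the dimensions of dual weight parts -/
theorem finrank_le_of_pair [IsAlgClosed Ω] [Module.Finite Ω V] [Module.Finite Ω V'] (hq : 1 < q)
    (B : V →ₗ[Ω] V' →ₗ[Ω] Ω) {F : Module.End Ω V} {F' : Module.End Ω V'} (hF' : HasWt F' q)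
    {n : ℕ} (hB : ∀ x y, B (F x) (F' y) = (q : Ω) ^ n * B x y)
    (hl : ∀ x, (∀ y, B x y = 0) → x = 0) {a b : ℤ} (hab : a + b = 2 * n) :
    finrank Ω (wtp F q a) ≤ finrank Ω (wtp F' q b) := by
  let T : wtp F q a →ₗ[Ω] Dual Ω (wtp F' q b) :=
    ((wtp F' q b).subtype.dualMap.comp B).comp (wtp F q a).subtype
  have hT : Function.Injective T := by
    rw [← LinearMap.ker_eq_bot, LinearMap.ker_eq_bot']
    intro x hx
    apply Subtype.ext
    refine eq_zero_of_pair hq B hF' hB hl hab x.2 fun y hy => ?_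
    exact LinearMap.congr_fun hx ⟨y, hy⟩
  have h1 := LinearMap.finrank_le_finrank_of_injective hT
  rwa [Subspace.dual_finrank_eq] at h1

theorem finrank_eq_of_pair [IsAlgClosed Ω] [Module.Finite Ω V] [Module.Finite Ω V'] (hq : 1 < q)
    (B : V →ₗ[Ω] V' →ₗ[Ω] Ω) {F : Module.End Ω V} {F' : Module.End Ω V'} (hF : HasWt F q)
    (hF' : HasWt F' q) {n : ℕ} (hB : ∀ x y, B (F x) (F' y) = (q : Ω) ^ n * B x y)
    (hl : ∀ x, (∀ y, B x y = 0) → x = 0) (hr : ∀ y, (∀ x, B x y = 0) → y = 0) {a b : ℤ}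
    (hab : a + b = 2 * n) : finrank Ω (wtp F q a) = finrank Ω (wtp F' q b) := by
  apply le_antisymm (finrank_le_of_pair hq B hF' hB hl hab)
  exact finrank_le_of_pair hq B.flip hF (fun y x => hB x y) hr (by omega)

/-- homogeneous preimages -/
theorem exists_wt_lift [IsAlgClosed Ω] [Module.Finite Ω V] (hq : 1 < q) {F : Module.End Ω V}
    {F' : Module.End Ω V'} (hF : HasWt F q) (hF' : HasWt F' q) {φ : V →ₗ[Ω] V'}
    (hφ : ∀ x, φ (F x) = F' (φ x)) {w : ℤ} {v : V} (h : φ v ∈ wtp F' q w) :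
    ∃ v' ∈ wtp F q w, φ v' = φ v := by
  classical
  obtain ⟨f, hf, hsum⟩ := exists_decomp hF v
  have hind := indep_wtp hq hF'
  rw [iSupIndep_iff_finsetSum_eq_zero_imp_eq_zero] at hind
  refine ⟨f w, hf w, ?_⟩
  have h6 : ∑ j ∈ insert w f.support, (φ (f j) - if j = w then φ v else 0) = 0 := by
    rw [Finset.sum_sub_distrib, Finset.sum_ite_eq' _ _ _, if_pos (Finset.mem_insert_self _ _),
      sub_eq_zero, ← map_sum]
    congr 1
    rw [← hsum, Finsupp.sum]
    refine (Finset.sum_subset (Finset.subset_insert _ _) fun j _ hj => ?_).symm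
    exact Finsupp.notMem_support_iff.1 hj
  have h8 := hind _ _ (fun j hj => by
    refine Submodule.sub_mem _ (map_wtp0 (by omega) hφ (hf j)) ?_
    split_ifs with h'
    · rw [h']; exact h
    · exact Submodule.zero_mem _) h6 w (Finset.mem_insert_self _ _)
  rw [if_pos rfl, sub_eq_zero] at h8
  exact h8

/-- eigenvectors in stable subspaces of a weight part -/
theorem exists_eigen [IsAlgClosed Ω] [Module.Finite Ω V] (hq : 1 < q) {F : Module.End Ω V}
    (hF : HasWt F q) {a : ℤ} {S : Submodule Ω V} (hS : ∀ x ∈ S, F x ∈ S) {x : V} (hx : x ∈ S)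
    (hxa : x ∈ wtp F q a) (h0 : x ≠ 0) :
    ∃ (α : Ω) (y : V), y ∈ S ∧ y ≠ 0 ∧ F y = α • y ∧ IsWeilNumber q a α := by
  let T : Submodule Ω V := S ⊓ wtp F q a
  have hT : ∀ x ∈ T, F x ∈ T := fun x hx => ⟨hS x hx.1, F_wtp (by omega) hx.2⟩
  have hne : Nontrivial T := ⟨⟨⟨x, hx, hxa⟩, 0, fun h => h0 (congrArg Subtype.val h)⟩⟩
  obtain ⟨α, hα⟩ := Module.End.exists_eigenvalue (F.restrict hT)
  obtain ⟨y, hy⟩ := hα.exists_hasEigenvector
  have h1 : F (y : V) = α • (y : V) := congrArg Subtype.val hy.apply_eq_smul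
  have h2 : (y : V) ≠ 0 := fun h => hy.2 (Subtype.ext h)
  exact ⟨α, y, y.2.1, h2, h1, eigen_wtp hq hF y.2.2 h2 h1⟩

/-- a weight part contained in a subspace, because it does not occur in the quotient -/
theorem wtp_le {F : Module.End Ω V} {R : Submodule Ω V} {a : ℤ}
    (h : ∀ (α : Ω) (x : V), x ∉ R → F x - α • x ∈ R → ¬ IsWeilNumber q a α) :
    wtp F q a ≤ R := by
  refine iSup₂_le fun α hα => ?_
  intro x hx
  rw [Module.End.mem_maxGenEigenspace] at hx
  obtain ⟨k, hk⟩ := hx
  have key : ∀ k : ℕ, ∀ x : V, ((F - α • (1 : Module.End Ω V)) ^ k) x ∈ R → x ∈ R := by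
    intro k
    induction k with
    | zero => intro x hx; exact hx
    | succ k ih =>
      intro x hx
      rw [pow_succ, Module.End.mul_apply] at hx
      have h1 := ih _ hx
      by_contra h2
      exact h α x h2 h1 hα
  apply key k x
  rw [hk]
  exact R.zero_mem

end Pool.Agent.H849.IS
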